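import Mathlib
import Pool.Agent.Run7.h285.S.Stm

/-!
# Project GEN (helper285): systems of arbitrary polynomials of degrees at least two at the optimal scale

Extension of the project SYS (`Run7/h285/S/*`, finished: `MP_2dba45_nt/SystemsAtAllScales`) from the polynomials `n² + a_l` to
`f_l(n) + a_l` with FIXED polynomials `f_1, …, f_k` of degrees `d_l ≥ 2` with positive leading coefficients: for almost all
`(a₁, …, a_k, m)`, `|a_l| ≤ X`, `m₀ < m ≤ m₀ + M`, where `M^(d_l - 1) ≥ X^(1/3) log^B X` and `(m₀ + M)^(d_l) ≤ X log^C X` for all `l`, all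
windows `(m, m + H]`, `H ≥ T log^k X`, have the number of `n` predicted by Bateman and Horn for which ALL `|f_l(n) + a_l|` are primes.
Hosts: MP_4d57ea_nt (primes `m³ + k`), slot 3; with weights `ω` = indicator of the primes: a second hand-in (prime arguments).

Everything is modelled on the pieces of SYS; `X² ` is replaced by `f` (`(n : ℤ) ^ 2` by `(f l).eval (n : ℤ)`), and the shift
`(m + j)² - (m + i)² = (j - i) (2 m + i + j)` by the polynomial `D(m) = f(m + j) - f(m + i)` of degree `d - 1 ≥ 1` with leading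
coefficient `d a_d (j - i)`. `L` stands for `log X`, `z = ⌊L^E⌋`, `w = ⌊L^(1/u)⌋`. Constants may be changed freely inside the proofs.
`Bx`, `uu`, `vv`, `ll`, `gg` are those of `Run7/h285/S/Stm.lean`.

Pieces: `gcg : S_LAW' → Gd g → S_GCG g`, `gcf : Gd g → S_GCF g`, `gsm1 : (∀ l, Gd (f l)) → (∀ l, S_GCG (f l)) → S_GSM1 f`,
`gsm2 : (∀ l, Gd (f l)) → (∀ l, S_GCF (f l)) → S_GSM2 f`, `gfl : (∀ l, Gd (f l)) → S_GFL f`, `ghg : (∀ l, Gd (f l)) → S_GHG f`,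
`gen : 1 ≤ k → (∀ l, Gd (f l)) → S_GSM1 f → S_GSM2 f → S_GFL f → S_GHG f → S_GEN f`.
-/

set_option autoImplicit false

namespace Run7.h285.G

open Finset Filter Topology Polynomial
open Pool.Agent.TH892.SW (ff wt)
open Pool.Agent.H373R2.T7 (lamz Vz)
open Run7.h285.S (Bx uu vv ll gg)

/-- the polynomials: degree at least two, positive leading coefficient -/
def Gd (g : ℤ[X]) : Prop := 2 ≤ g.natDegree ∧ 0 < g.leadingCoeff

/-- the correlation of `F` at `g(n)` and `g(n')` -/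
noncomputable def cor (g : ℤ[X]) (F : ℤ → ℝ) (X n n' : ℕ) : ℝ :=
  ∑ c ∈ Icc (-(X : ℤ)) X, F (g.eval (n : ℤ) + c) * F (g.eval (n' : ℤ) + c)

/-- the value of the product of the functions `F l` at the numbers `f_l(n) + a l` -/
noncomputable def pr {k : ℕ} (f : Fin k → ℤ[X]) (F : Fin k → ℤ → ℝ) (a : Fin k → ℤ) (n : ℕ) : ℝ :=
  ∏ l, F l ((f l).eval (n : ℤ) + a l)

/-- the second moment over the constant terms and the windows of length `H`, with weights `ω` -/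
noncomputable def MM (k : ℕ) (ω : ℕ → ℝ) (G : (Fin k → ℤ) → ℕ → ℝ) (X m₀ M H : ℕ) : ℝ :=
  ∑ a ∈ Bx k X, ∑ m ∈ Ioc m₀ (m₀ + M), (∑ n ∈ Ioc m (m + H), ω n * G a n) ^ 2

/-- the number of the residues modulo `p` at which one of the polynomials vanishes -/
noncomputable def nu {k : ℕ} (f : Fin k → ℤ[X]) (a : Fin k → ℤ) (p : ℕ) : ℕ := by
  classical exact #((range p).filter (fun x : ℕ => ∃ l, (p : ℤ) ∣ (f l).eval (x : ℤ) + a l))

/-- the constant of Bateman and Horn, cut at `N` -/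
noncomputable def SS {k : ℕ} (f : Fin k → ℤ[X]) (a : Fin k → ℤ) (N : ℕ) : ℝ :=
  ∏ p ∈ (range (N + 1)).filter Nat.Prime, (1 - (nu f a p : ℝ) / p) / (1 - 1 / (p : ℝ)) ^ k

/-- no prime divides the product of the polynomials at all integers -/
def Adm {k : ℕ} (f : Fin k → ℤ[X]) (a : Fin k → ℤ) : Prop := ∀ p : ℕ, p.Prime → nu f a p < p

/-- the number of the `n` in the window for which all `|f_l(n) + a l|` are primes -/
def P {k : ℕ} (f : Fin k → ℤ[X]) (a : Fin k → ℤ) (m H : ℕ) : ℕ :=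
  #((Ioc m (m + H)).filter (fun n : ℕ => ∀ l, ((f l).eval (n : ℤ) + a l).natAbs.Prime))

/-- the sum of `∏ 1 / log |f_l(n) + a l|` over the window -/
noncomputable def W {k : ℕ} (f : Fin k → ℤ[X]) (a : Fin k → ℤ) (m H : ℕ) : ℝ :=
  ∑ n ∈ Ioc m (m + H), ∏ l, wt ((f l).eval (n : ℤ) + a l).natAbs

/-! ### the correlations -/

/-- **GCG** (from `Pool.Agent.Run7.h794.MK.S_LAW'`; model: `Run7/h376/CGS/{A,A2,B,C,D}.lean`, theorem `cg`). `D(m) = g(m + j) - g(m + i)`.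
Changes: (1) blocks of length `M₁ = ⌊M / L^K⌋` (if `m` runs over a block, `g(m + i)` changes by at most `X / L^(U + C + 9)`, because
`(m₀ + M)^d ≤ X L^C` and `M ≤ m₀ + M`); `M₁^(d - 1) ≥ N^(1/3) L^(C')` from the hypothesis if `B` is large. (2) `D(m)` may be negative or `0` for
the `m` below a constant `n₀(g)` only (positive leading coefficient, `i < j`): these `m` contribute at most `n₀ (2 X + 1) (3 L)²`, and
`M ≥ X^(1/(3 (d - 1)))`. (3) the hypothesis of `S_LAW'` about the exponential sum: `m ↦ D(m₁ + m)` is an integer polynomial of degree `d - 1` with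
leading coefficient `d a_d (j - i)`, `1 ≤ d a_d (j - i) ≤ L^(D + 1)` (independent of `m₁`). By the inverse theorem for Weyl sums,
`Pool.Agent.Run7.h18.MK.iw_unif` (`Run7/h18/MK/Poly1.lean`, see there the use of `S_T31G`, and of `S_LAW'` in `Run7/h18/MK/Arb1.lean`, theorem `ms_w`):
if the sum over `M₁` terms is at least `M₁ / L^V` then `|α - a / k| ≤ c L^(V m) / M₁^(d - 1)` with `k ≤ c L^(V m) d a_d (j - i)`; `Γ` = the integers nearest to `Md a / k`,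
`H = ⌊M₁^(d - 1) / L^(…)⌋`, exponents `T`, `D` of `S_LAW'` chosen after `V` (that is why `V` comes first in `S_LAW'`). -/
def S_GCG (g : ℤ[X]) : Prop := ∀ U C D : ℕ, ∃ E1 : ℕ, ∀ E : ℕ, E1 ≤ E → ∃ B X₀ : ℕ, ∀ X : ℕ, X₀ ≤ X → ∀ m₀ M i j : ℕ, i < j →
  (j : ℝ) ≤ Real.log X ^ D → (X : ℝ) ^ (1 / 3 : ℝ) * Real.log X ^ B ≤ (M : ℝ) ^ (g.natDegree - 1) →
  ((m₀ : ℝ) + M) ^ g.natDegree ≤ X * Real.log X ^ C →
  ∑ m ∈ Ioc m₀ (m₀ + M), |cor g (gg ⌊Real.log X ^ E⌋₊) X (m + i) (m + j)| ≤ X * M / Real.log X ^ U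

/-- **GCF** (elementary; model: `Run7/h382/S/{CFa,CF}.lean`, theorem `CF`). Changes: `D(m) = g(m + j) - g(m + i)`; `D(m) = 0` for at most
`d - 1` values of `m` (contribution `≤ d (2 X + 1) (Vz z)⁻²`, and `M ≥ X^(1/(3 (d - 1)))`); for a prime `p` not dividing `d a_d (j - i)` at most
`(d - 1) (M / p + 1)` of the `m` have `p | D(m)` (a nonzero polynomial modulo `p` of degree `≤ d - 1`); the primes `p > w` dividing
`d a_d (j - i) ≤ L^(D + 1)` contribute at most `M ∑ 1 / (p - 1) ≤ M (D + 2) log L / w`. -/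
def S_GCF (g : ℤ[X]) : Prop := ∀ C D E u V : ℕ, 1 ≤ E → 1 ≤ u → ∃ X₀ : ℕ, ∀ X : ℕ, X₀ ≤ X → ∀ m₀ M i j : ℕ, i < j →
  (j : ℝ) ≤ Real.log X ^ D → (X : ℝ) ^ (1 / 3 : ℝ) ≤ (M : ℝ) ^ (g.natDegree - 1) →
  ((m₀ : ℝ) + M) ^ g.natDegree ≤ X * Real.log X ^ C →
  ∑ m ∈ Ioc m₀ (m₀ + M), |cor g (fun y => ll ⌊Real.log X ^ E⌋₊ y - ll ⌊Real.log X ^ (1 / (u : ℝ))⌋₊ y) X (m + i) (m + j)| ≤
    X * M / Real.log (Real.log X) ^ V

/-! ### the second moments -/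

/-- **GSM1** (from GCG for all `f l`; model: `Run7/h277/S/{Main,SM1}.lean`, theorem `sm1`). New: the polynomials depend on `l`; weights `ω`
(arbitrary, `|ω| ≤ 1`), the diagonal `n = n'` has the factor `ω(n)²`. For the diagonal: `∑_c uu(g(n) + c) ≤ K X / L` for all `n` with
`|g(n)| ≤ X L^(C+1)`, etc. -/
def S_GSM1 {k : ℕ} (f : Fin k → ℤ[X]) : Prop := ∃ K₀ : ℝ, 1 ≤ K₀ ∧ ∀ U C D : ℕ, ∃ E1 : ℕ, ∀ E : ℕ, E1 ≤ E → ∃ B X₀ : ℕ,
  ∀ X : ℕ, X₀ ≤ X → ∀ m₀ M H : ℕ, 1 ≤ H → (H : ℝ) ≤ Real.log X ^ D →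
  (∀ l, (X : ℝ) ^ (1 / 3 : ℝ) * Real.log X ^ B ≤ (M : ℝ) ^ ((f l).natDegree - 1)) →
  (∀ l, ((m₀ : ℝ) + M) ^ (f l).natDegree ≤ X * Real.log X ^ C) → ∀ ω : ℕ → ℝ, (∀ n, |ω n| ≤ 1) →
  MM k ω (fun a n => pr f (fun _ => uu) a n - pr f (fun _ => vv ⌊Real.log X ^ E⌋₊) a n) X m₀ M H ≤
    (X : ℝ) ^ k * (K₀ * (∑ m ∈ Ioc m₀ (m₀ + M), ∑ n ∈ Ioc m (m + H), ω n ^ 2) / Real.log X ^ k +
      M * (H : ℝ) ^ 2 / Real.log X ^ U)

/-- **GSM2** (from GCF; model: `Run7/h277/S/SM2.lean`, theorem `sm2`) -/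
def S_GSM2 {k : ℕ} (f : Fin k → ℤ[X]) : Prop := ∀ C D E u V : ℕ, 1 ≤ E → 1 ≤ u → ∃ X₀ : ℕ, ∀ X : ℕ, X₀ ≤ X →
  ∀ m₀ M H : ℕ, 1 ≤ H → (H : ℝ) ≤ Real.log X ^ D →
  (∀ l, (X : ℝ) ^ (1 / 3 : ℝ) ≤ (M : ℝ) ^ ((f l).natDegree - 1)) →
  (∀ l, ((m₀ : ℝ) + M) ^ (f l).natDegree ≤ X * Real.log X ^ C) →
  MM k (fun _ => 1) (fun a n => pr f (fun _ => ll ⌊Real.log X ^ E⌋₊) a n -
      pr f (fun _ => ll ⌊Real.log X ^ (1 / (u : ℝ))⌋₊) a n) X m₀ M H ≤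
    (X : ℝ) ^ k * M * (H * √(Real.log X) + (H : ℝ) ^ 2 / Real.log (Real.log X) ^ V)

/-! ### the constants -/

/-- **GFL** (fundamental lemma in a window; model: `Run7/h382/S/FLS.lean`, theorem `FLS`). `SW.fl_set κ` with `κ = ∑ l, deg f_l`: if `nu f a p < p`
then no `f_l + a_l` vanishes identically modulo `p`, so each has at most `deg f_l` roots modulo `p` and `nu f a p ≤ κ`. `y0` and `C1` may depend
on `f`. -/
def S_GFL {k : ℕ} (f : Fin k → ℤ[X]) : Prop := ∃ C1 y0 : ℕ, 1 ≤ C1 ∧ 2 ≤ y0 ∧ ∀ b : ℕ, C1 ≤ b → ∀ w : ℕ, y0 ≤ w → ∀ H : ℕ,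
  w ^ (C1 * b) ≤ H → ∀ (a : Fin k → ℤ) (m : ℕ), Adm f a →
  |∑ n ∈ Ioc m (m + H), pr f (fun _ => ll w) a n - H * SS f a w| ≤ 2 * (1 / 2 : ℝ) ^ b * SS f a w * H

/-- **GHG** (the constants CUT at `y`, elementary; `log X ≤ y ≤ log^C X`). Proof. For a prime `p` and a polynomial `g` let `ρ_c(p)` be the number
of roots of `g + c` modulo `p`; as `c` runs over the residues the mean of `ρ_c(p)` is `1` and `ρ_c(p) ≤ deg g` or `ρ_c(p) = p` (only if `g` is constant as a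
function modulo `p`, so `p ≤ p₀(g)`). For `p ≠ q` above `p₀` the variables `ρ_c(p) - 1`, `ρ_c(q) - 1` are independent with mean `0`, so
`∑_{|c| ≤ X} (∑_{w < p ≤ y} (ρ_c(p) - 1) / p)² ≤ K X / w + y⁴ K ≤ 2 K X / w` (count of the `c ≡ c₀ (mod p q)` in `[-X, X]`). For `k` polynomials:
`∑_l ρ_l(p) - nu f a p` lies between `0` and `k κ · #{x mod p : two of the values vanish}`, whose mean over `a` is at most `k² / p`; hence
`∑_a ∑_{w < p ≤ y} (1/p) (…) ≤ K X^k / w`. Therefore `log (SS f a y / SS f a w) = ∑_{w < p ≤ y} (k - nu f a p) / p + O(1/w)` is small for all but few `a`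
(Chebyshev, Markov), where `w = ⌊L^(1/u)⌋`; the same with a large constant `w0(η)` in the place of `w`, and
`SS f a w0 ≥ ∏_{p ≤ w0} (1 / p)` by `Adm`, gives `δ0`. (Model for the last steps: `Run7/h285/S/HGS.lean`.) -/
def S_GHG {k : ℕ} (f : Fin k → ℤ[X]) : Prop := ∀ η : ℝ, 0 < η → ∃ δ0 : ℝ, 0 < δ0 ∧ ∀ ε1 : ℝ, 0 < ε1 → ∀ u C : ℕ, 1 ≤ u →
  ∃ X₀ : ℕ, ∀ X : ℕ, X₀ ≤ X → ∀ y : ℕ, Real.log X ≤ y → (y : ℝ) ≤ Real.log X ^ C →
  ∃ Bad ⊆ Bx k X, (#Bad : ℝ) ≤ η * (X : ℝ) ^ k ∧ ∀ a ∈ Bx k X, a ∉ Bad → Adm f a →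
    δ0 ≤ SS f a y ∧ |SS f a ⌊Real.log X ^ (1 / (u : ℝ))⌋₊ - SS f a y| ≤ ε1 * SS f a y

/-- **GEN** (the hand-in; from GSM1, GSM2, GFL, GHG; model `Run7/h285/S/SYSM{a,b,}.lean`). Written by helper285. -/
def S_GEN {k : ℕ} (f : Fin k → ℤ[X]) : Prop := ∀ ε : ℝ, 0 < ε → ∃ T : ℝ, 0 < T ∧ ∀ C : ℕ, ∃ B X₀ : ℕ, ∀ X : ℕ, X₀ ≤ X →
  ∀ m₀ M : ℕ, (∀ l, (X : ℝ) ^ (1 / 3 : ℝ) * Real.log X ^ B ≤ (M : ℝ) ^ ((f l).natDegree - 1)) →
  (∀ l, ((m₀ : ℝ) + M) ^ (f l).natDegree ≤ X * Real.log X ^ C) → ∀ y : ℕ, Real.log X ≤ y → (y : ℝ) ≤ Real.log X ^ C →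
  ∃ Bad ⊆ Bx k X ×ˢ Ioc m₀ (m₀ + M), (#Bad : ℝ) ≤ ε * ((X : ℝ) ^ k * M) ∧
    ∀ a ∈ Bx k X, ∀ m ∈ Ioc m₀ (m₀ + M), (a, m) ∉ Bad → Adm f a → 0 < SS f a y ∧
      ∀ H : ℕ, T * Real.log X ^ k ≤ H → (∀ l, (H : ℝ) ^ (f l).natDegree ≤ X * Real.log X ^ C) →
        |(P f a m H : ℝ) - SS f a y * W f a m H| ≤ ε * (SS f a y * W f a m H)

end Run7.h285.G
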