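import Pool.Agent.Run7.h285.G.GENb
import Pool.Agent.Run7.h285.S.SYSM

/-!
# Project GEN: the assembly, last part
-/

set_option autoImplicit false

namespace Run7.h285.G

open Finset Filter Topology Polynomial
open Pool.Agent.H373R2.T7 (pz Vz lamz mem_pz Vz_ge Vz_inv_le Vz_le_one Vz_inv_small)
open Pool.Agent.TH892.SW (ff wt wt_nonneg wt_le)
open Pool.Agent.TH892.OW (evt_ll)
open Run7.h285.S (Bx uu vv ll gg MG cheb prod_close pow_small wt_close cuts fl_use count0)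
open Run7.h285.X (scal scal_ge scal_lt all_scales max_abs)
open Pool.Agent.H442R2.EHI (evt_log_pow evt_log_ge)

/-- one constant for the sizes of all values -/
lemma val_all {k : ℕ} (f : Fin k → ℤ[X]) : ∃ K : ℝ, 0 < K ∧ (∀ l, (2 : ℝ) ^ (f l).natDegree ≤ K) ∧
    ∀ (X m₀ M C m G n : ℕ) (l : ℝ) (a : Fin k → ℤ), K ≤ l → 1 ≤ l → (1 : ℝ) ≤ X →
    a ∈ Bx k X → m ∈ Ioc m₀ (m₀ + M) → (∀ i, ((m₀ : ℝ) + M) ^ (f i).natDegree ≤ X * l ^ C) →
    (∀ i, (G : ℝ) ^ (f i).natDegree ≤ X * l ^ (C + 1)) → n ∈ Ioc m (m + G) → ∀ i,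
    (((f i).eval (n : ℤ) + a i).natAbs : ℝ) ≤ X * l ^ (C + 2) := by
  choose K hK0 hK using fun i : Fin k => val_le (f i)
  have h1 : ∀ i, K i ≤ ∑ j, (K j + 2 ^ (f j).natDegree) + 1 := by
    intro i
    have a1 : K i + 2 ^ (f i).natDegree ≤ ∑ j, (K j + 2 ^ (f j).natDegree) :=
      single_le_sum (f := fun j => K j + (2 : ℝ) ^ (f j).natDegree) (fun j _ => by
        have := hK0 j
        positivity) (mem_univ i)
    have a2 : (0 : ℝ) < 2 ^ (f i).natDegree := by positivity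
    linarith
  have h2 : ∀ i, (2 : ℝ) ^ (f i).natDegree ≤ ∑ j, (K j + 2 ^ (f j).natDegree) + 1 := by
    intro i
    have a1 : K i + 2 ^ (f i).natDegree ≤ ∑ j, (K j + 2 ^ (f j).natDegree) :=
      single_le_sum (f := fun j => K j + (2 : ℝ) ^ (f j).natDegree) (fun j _ => by
        have := hK0 j
        positivity) (mem_univ i)
    have a2 := hK0 i
    linarith
  have h0 : 0 ≤ ∑ j, (K j + (2 : ℝ) ^ (f j).natDegree) := sum_nonneg fun j _ => by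
    have := hK0 j
    positivity
  refine ⟨∑ j, (K j + 2 ^ (f j).natDegree) + 1, by linarith, h2, ?_⟩
  intro X m₀ M C m G n l a hKl hl hX ha hm hW hG hn i
  exact hK i X m₀ M C m G n l (a i) ((h1 i).trans hKl) hl hX (Fintype.mem_piFinset.1 ha i) hm (hW i) (hG i) hn

/-- doubling -/
lemma dbl (x y A B K l : ℝ) (d : ℕ) (hx : 0 ≤ x) (hy : 0 ≤ y) (hxA : x ^ d ≤ A) (hyA : y ^ d ≤ A) (hA : 0 ≤ A)
    (h2 : (2 : ℝ) ^ d ≤ K) (hKl : K ≤ l) (hB : l * A ≤ B) : (x + y) ^ d ≤ B := by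
  have h1 : x + y ≤ 2 * max x y := by
    have := le_max_left x y
    have := le_max_right x y
    linarith
  have h3 : (x + y) ^ d ≤ 2 ^ d * A := by
    refine (pow_le_pow_left₀ (by linarith) h1 _).trans ?_
    rw [mul_pow]
    apply mul_le_mul_of_nonneg_left _ (by positivity)
    rcases max_choice x y with h | h
    · rw [h]; exact hxA
    · rw [h]; exact hyA
  have h4 : 2 ^ d * A ≤ l * A := mul_le_mul_of_nonneg_right (h2.trans hKl) hA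
  linarith

open Classical in
theorem gen {k : ℕ} (f : Fin k → ℤ[X]) (hk : 1 ≤ k) (hgd : ∀ l, Gd (f l)) (h1 : S_GSM1 f) (h2 : S_GSM2 f)
    (hf : S_GFL f) (h3 : S_GHG f) : S_GEN f := by
  intro ε₀ hε₀
  obtain ⟨ε, hεd⟩ : ∃ ε, ε = min ε₀ 1 := ⟨_, rfl⟩
  have hε : 0 < ε := by rw [hεd]; exact lt_min hε₀ one_pos
  have hεl : ε ≤ 1 := by rw [hεd]; exact min_le_right _ _
  have hεe : ε ≤ ε₀ := by rw [hεd]; exact min_le_left _ _
  clear hεd
  obtain ⟨ε₁, hε₁⟩ : ∃ ε₁, ε₁ = ε / 2400 := ⟨_, rfl⟩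
  have he0 : 0 < ε₁ := by rw [hε₁]; positivity
  obtain ⟨δ0, hδ0, hHG⟩ := h3 (ε / 4) (by positivity)
  obtain ⟨C1, y0, hC1, hy0, hfl⟩ := hf
  obtain ⟨ε₂, he20, he21⟩ := pow_small k ε₁ he0
  obtain ⟨K, hK0, hK2, hKv⟩ := val_all f
  obtain ⟨b, hb1, hb2⟩ : ∃ b : ℕ, C1 ≤ b ∧ 2 * (1 / 2 : ℝ) ^ b ≤ ε₁ := by
    obtain ⟨n, hn⟩ := exists_pow_lt_of_lt_one (show (0 : ℝ) < ε₁ / 2 by positivity) (show (1 / 2 : ℝ) < 1 by norm_num)
    refine ⟨C1 + n, by omega, ?_⟩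
    have h4 : (1 / 2 : ℝ) ^ (C1 + n) ≤ (1 / 2 : ℝ) ^ n := pow_le_pow_of_le_one (by norm_num) (by norm_num) (by omega)
    linarith
  obtain ⟨u, hu⟩ : ∃ u, u = C1 * b := ⟨_, rfl⟩
  have hu1 : 1 ≤ u := by rw [hu]; exact Nat.mul_pos (by omega) (by omega)
  have hfl := fun (w : ℕ) (hw : y0 ≤ w) (H : ℕ) (hH : w ^ (C1 * b) ≤ H) => hfl b hb1 w hw H hH
  rw [← hu] at hfl
  have hHG := fun C => hHG ε₁ he0 u C hu1
  obtain ⟨K₀, hK₀, hff⟩ := mom_1M f h1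
  obtain ⟨lam, hlam⟩ : ∃ lam, lam = 1 + ε / 10 := ⟨_, rfl⟩
  have hlam1 : 1 < lam := by rw [hlam]; have : 0 < ε / 10 := by positivity
                             linarith
  have hloglam : 0 < Real.log lam := Real.log_pos hlam1
  obtain ⟨e, he⟩ : ∃ e, e = ε₁ * δ0 := ⟨_, rfl⟩
  have hep : 0 < e := by rw [he]; positivity
  obtain ⟨Kf, hKf⟩ : ∃ Kf, Kf = 1 / e ^ 2 * K₀ + 3 * (k * 3 ^ k) := ⟨_, rfl⟩
  have hKf0 : 0 < Kf := by rw [hKf]; positivity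
  obtain ⟨Kz, hKz⟩ : ∃ Kz, Kz = 1 / e ^ 2 := ⟨_, rfl⟩
  have hKz0 : 0 < Kz := by rw [hKz]; positivity
  obtain ⟨T, hT⟩ : ∃ T, T = Kf * (8 * (lam / (lam - 1))) / ε + 1 := ⟨_, rfl⟩
  have hlr : 0 < lam / (lam - 1) := div_pos (by linarith) (by linarith)
  have hT1 : 1 ≤ T := by
    rw [hT]
    have : 0 ≤ Kf * (8 * (lam / (lam - 1))) / ε := by positivity
    linarith
  have hTK : Kf * (1 / T * (lam / (lam - 1))) ≤ ε / 8 := by
    have hT0 : 0 < T := by linarith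
    have e' : Kf * (1 / T * (lam / (lam - 1))) = Kf * (lam / (lam - 1)) / T := by ring
    rw [e', div_le_iff₀ hT0]
    have h4 : ε / 8 * T = Kf * (lam / (lam - 1)) + ε / 8 := by rw [hT]; field_simp
    rw [h4]
    have : 0 < ε / 8 := by positivity
    linarith
  clear hT
  refine ⟨2 * T, by linarith, fun C => ?_⟩
  obtain ⟨Xg, hXg⟩ := hHG C
  obtain ⟨E1, hff⟩ := hff (C + 2)
  obtain ⟨E, hE⟩ : ∃ E, E = E1 + 1 := ⟨_, rfl⟩
  obtain ⟨B, Xa, hff⟩ := hff E (by omega)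
  obtain ⟨D, hD⟩ : ∃ D, D = E * u + k := ⟨_, rfl⟩
  obtain ⟨Xb, hfz⟩ := mom_2M f h2 C (D + 1) E u (by omega) hu1
  obtain ⟨Xc, hVz⟩ := Run7.h285.E2.Vz_sqrt E (by omega)
  obtain ⟨Xd, hwc⟩ := wt_close (2 * k + 4) (C + 2) ε₂ he20
  obtain ⟨LJ, hLJ⟩ : ∃ LJ, LJ = 1 / Real.log lam + 1 := ⟨_, rfl⟩
  have hLJ0 : 0 < LJ := by rw [hLJ]; positivity
  obtain ⟨KD, hKD⟩ : ∃ KD, KD = ((D + 1 : ℕ) : ℝ) / Real.log lam + 1 := ⟨_, rfl⟩
  have hKD0 : 0 < KD := by rw [hKD]; positivity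
  have hev : ∀ᶠ X : ℕ in atTop, (10000 + 10 / ε + 2 ^ (k + 1) / (ε₁ * δ0) + 2 ^ (k + 1) / ε₁ +
        16 * (LJ * (Kf + 3)) / ε + K : ℝ) ≤ Real.log X ∧
      ((y0 : ℝ) + 1) * Real.log (Real.log X) ^ 0 ≤ Real.log X ^ (1 / (u : ℝ)) ∧
      Real.log X ^ (2 * k + 4 + 2 * C + 2) ≤ (X : ℝ) ^ (1 : ℝ) ∧
      1 * Real.log (Real.log X) ^ 4 ≤ Real.log X ^ (1 : ℝ) ∧
      Real.exp (64 * ((KD + 1) * Kz) / ε + 2) ≤ Real.log X := by
    filter_upwards [evt_log_ge _, evt_ll 0 (1 / (u : ℝ)) (y0 + 1) (by positivity),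
      evt_log_pow (2 * k + 4 + 2 * C + 2) 1 (by norm_num), evt_ll 4 1 1 (by norm_num), evt_log_ge _] with X a1 a2 a3 a4 a5
    exact ⟨a1, a2, a3, a4, a5⟩
  obtain ⟨Xe, hXe⟩ := eventually_atTop.1 hev
  refine ⟨B, Xg + Xa + Xb + Xc + Xd + Xe, fun X hX m₀ M hM hW y hy1 hy2 => ?_⟩
  obtain ⟨BadG, -, hBadG, hgood⟩ := hXg X (by omega) y hy1 hy2
  have hff := hff X (by omega) m₀ M
  have hfz := hfz X (by omega) m₀ M
  have hVz := hVz X (by omega)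
  have hwc := hwc X (by omega)
  obtain ⟨hl, hlu, hlX, hl4, hle⟩ := hXe X (by omega)
  have p0 : 0 < 10 / ε := by positivity
  have p2 : 0 < 2 ^ (k + 1) / (ε₁ * δ0) := by positivity
  have p3 : 0 < 2 ^ (k + 1) / ε₁ := by positivity
  have p4 : 0 < 16 * (LJ * (Kf + 3)) / ε := by positivity
  have g0 : 10000 ≤ Real.log X := by linarith
  have g1 : 10 / ε ≤ Real.log X := by linarith
  have g2 : 2 ^ (k + 1) / (ε₁ * δ0) ≤ Real.log X := by linarith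
  have g3 : 2 ^ (k + 1) / ε₁ ≤ Real.log X := by linarith
  have g4 : 16 * (LJ * (Kf + 3)) / ε ≤ Real.log X := by linarith
  have g5 : K ≤ Real.log X := by linarith
  clear hl p0 p2 p3 p4
  have hl1' : 1 ≤ Real.log X := by linarith
  have hM3 : ∀ i, (X : ℝ) ^ (1 / 3 : ℝ) ≤ (M : ℝ) ^ ((f i).natDegree - 1) := by
    intro i
    refine le_trans ?_ (hM i)
    exact le_mul_of_one_le_right (by positivity) (one_le_pow₀ hl1')
  have hff := fun H hH1 hH2 => hff H hM hH1 hH2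
  have hfz := fun H hH1 hH2 => hfz H hM3 hW hH1 hH2
  clear hXg hXe hev h1 h2 h3 hHG
  rw [pow_zero, mul_one] at hlu
  rw [Real.rpow_one] at hlX
  rw [Real.rpow_one, one_mul] at hl4
  have hXp : 1 ≤ X := by
    rcases Nat.eq_zero_or_pos X with h | h
    · rw [h] at hl1'; norm_num at hl1'
    · exact h
  have hX1 : (1 : ℝ) ≤ X := by exact_mod_cast hXp
  have hX0 : (0 : ℝ) < X := by linarith
  have hM0 : (0 : ℝ) < M := by
    have h4 : 0 < (X : ℝ) ^ (1 / 3 : ℝ) := Real.rpow_pos_of_pos (by linarith) _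
    have h5 := hM3 ⟨0, hk⟩
    have h6 := (hgd ⟨0, hk⟩).1
    rcases Nat.eq_zero_or_pos M with h | h
    · rw [h, Nat.cast_zero, zero_pow (by omega)] at h5
      linarith
    · exact_mod_cast h
  clear hM hM3
  generalize hll : Real.log (X : ℝ) = l at *
  obtain ⟨hz2, hwy, hzy, hwu, hHDl, hHDu⟩ := cuts l k u E y0 D g0 hu1 (by omega) hy0 hk hD hlu
  obtain ⟨w, hw⟩ : ∃ w, w = ⌊l ^ (1 / (u : ℝ))⌋₊ := ⟨_, rfl⟩
  obtain ⟨z, hz⟩ : ∃ z, z = ⌊l ^ E⌋₊ := ⟨_, rfl⟩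
  rw [← hz] at hff hfz hVz hz2 hzy hHDl hHDu
  rw [← hw] at hfz hgood hwy hwu
  clear hw hz hlu
  have hl0 : 0 < l := by linarith
  have hLl : l ≤ l ^ k := le_self_pow₀ hl1' (by omega)
  have hL1 : 1 ≤ l ^ k := one_le_pow₀ hl1'
  obtain ⟨k₂, hk₂⟩ : ∃ k₂, k₂ = Real.log l := ⟨_, rfl⟩
  rw [← hk₂] at hfz hl4
  have hk1 : 64 * ((KD + 1) * Kz) / ε + 2 ≤ k₂ := by
    rw [hk₂, Real.le_log_iff_exp_le hl0]; exact hle
  have hk0 : 0 < 64 * ((KD + 1) * Kz) / ε := by positivity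
  obtain ⟨HD, hHD⟩ : ∃ HD : ℕ, HD = z ^ u + ⌈l ^ k⌉₊ := ⟨_, rfl⟩
  rw [← hHD] at hHDl hHDu
  have huHD : z ^ u ≤ HD := by omega
  have hXM : 0 < (X : ℝ) ^ k * M := by positivity
  have h6X : l ^ (2 * k + 4) ≤ X := (pow_le_pow_right₀ hl1' (by omega)).trans hlX
  have hCX : l ^ (C + 1) ≤ X := (pow_le_pow_right₀ hl1' (by omega)).trans hlX
  have hXC : 0 ≤ (X : ℝ) * l ^ (C + 1) := by positivity
  obtain ⟨Al, hAl⟩ : ∃ Al : ℕ → Prop, Al = fun H : ℕ => ∀ i, (H : ℝ) ^ (f i).natDegree ≤ X * l ^ (C + 1) := ⟨_, rfl⟩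
  have hAlX : ∀ H : ℕ, Al H → (H : ℝ) ≤ X := by
    intro H hH
    rw [hAl] at hH
    have h4 := hH ⟨0, hk⟩
    have h6 := (hgd ⟨0, hk⟩).1
    by_contra hcon
    push Not at hcon
    have h7 : (1 : ℝ) ≤ H := by linarith
    have h8 : (H : ℝ) ^ 2 ≤ (H : ℝ) ^ (f ⟨0, hk⟩).natDegree := pow_le_pow_right₀ h7 h6
    have h9 : (X : ℝ) * l ^ (C + 1) ≤ X * X := by gcongr
    nlinarith
  have hAlm : ∀ H H' : ℕ, H ≤ H' → Al H' → Al H := by
    intro H H' h hH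
    rw [hAl] at hH ⊢
    intro i
    refine le_trans ?_ (hH i)
    have : (H : ℝ) ≤ H' := by exact_mod_cast h
    exact pow_le_pow_left₀ (Nat.cast_nonneg _) this _
  have hW' : ∀ i, ((m₀ : ℝ) + M) ^ (f i).natDegree ≤ X * l ^ (C + 1) := by
    intro i
    refine (hW i).trans ?_
    gcongr
    omega
  have hAlW : ∀ H : ℕ, Al H → ∀ i, ((m₀ : ℝ) + H + M) ^ (f i).natDegree ≤ X * l ^ (C + 2) := by
    intro H hH i
    rw [hAl] at hH
    have h5 : (m₀ : ℝ) + H + M = (m₀ + M) + H := by ring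
    rw [h5]
    exact dbl _ _ _ _ K l _ (by positivity) (Nat.cast_nonneg _) (hW' i) (hH i) hXC (hK2 i) g5 (by
      rw [show C + 2 = C + 1 + 1 by ring, pow_succ l (C + 1)]
      exact le_of_eq (by ring))
  obtain ⟨Bad, hBadS, hBadc, hBadg⟩ := max_abs (Bx k X ×ˢ Ioc m₀ (m₀ + M)) (fun p => p.1 ∈ BadG)
    (bad1 f z (l ^ k) (l ^ (2 * k + 2)) e ((X : ℝ) / l ^ (2 * k + 4))) (bad2 f w z e) Al ((X : ℝ) ^ k * M) l (l ^ k) k₂ ε T
    lam Kf Kz LJ KD X (D + 1) HD hXM hl1' hLl hk₂ (by linarith) hε hT1 hlam1 hKf0 hKz0 hLJ hKD hTK hll hAlX g4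
    (by linarith) hl4 hHDl hHDu
    (by
      refine le_trans (le_of_eq ?_) (count0 k X m₀ M BadG (ε / 4) hBadG)
      congr!)
    (by
      intro G hG hA
      have h4 := count1 f hk X m₀ M z G l e (K₀ * (l ^ k / G + 1 / l ^ 2)) hl1' (by linarith) hep h6X hXp
        (hff G (hAlW G hA) hG)
      refine h4.trans (mul_le_mul_of_nonneg_left ?_ hXM.le)
      have h5 : 0 ≤ 3 * ((k : ℝ) * 3 ^ k) * (l ^ k / G) := by positivity
      have h6 : 0 ≤ 3 / l ^ 2 := by positivity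
      have h7 : Kf * (l ^ k / G + 1 / l ^ 2) + 3 / l ^ 2 = 1 / e ^ 2 * (K₀ * (l ^ k / G + 1 / l ^ 2)) +
          3 * (k * 3 ^ k) / l ^ 2 + (3 * ((k : ℝ) * 3 ^ k) * (l ^ k / G) + 3 / l ^ 2) := by
        rw [hKf]; ring
      rw [h7]
      linarith)
    (by
      intro G hG hGD hA
      have h4 := count2 f X m₀ M w z G e (1 / √l + 1 / k₂ ^ 2) (by linarith) hep
        (hfz G (hLl.trans hG) hGD)
      refine h4.trans (le_of_eq ?_)
      rw [hKz])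
  clear hff hfz hBadG hKf hKz hLJ hKD hTK hl4 hle hk1 hk0 hk₂ h6X hAlX hAlW
  refine ⟨Bad, hBadS, hBadc.trans (mul_le_mul_of_nonneg_right hεe hXM.le), ?_⟩
  intro a ha m hm hbad hadm
  obtain ⟨q0, q1, q2, q3⟩ := hBadg (a, m) (mem_product.2 ⟨ha, hm⟩) hbad
  clear hBadg hBadc hBadS
  obtain ⟨hδh, hhw⟩ := hgood a ha q0 hadm
  obtain ⟨h, hh⟩ : ∃ h, h = SS f a y := ⟨_, rfl⟩
  rw [← hh] at hδh hhw ⊢
  have hh0 : 0 < h := by linarith
  refine ⟨hh0, fun H hTH hHA => ?_⟩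
  have hWt : 0 ≤ h * W f a m H := by
    have hWt : 0 ≤ W f a m H := by
      unfold W
      exact sum_nonneg fun _ _ => prod_nonneg fun _ _ => wt_nonneg _
    positivity
  refine le_trans ?_ (mul_le_mul_of_nonneg_right hεe hWt)
  have hb0 : 0 < 2 * (1 / 2 : ℝ) ^ b := by positivity
  have hVz0 := inv_pos.2 (Pool.Agent.TH892.OW.Vz_pos z)
  refine pair_all f w z (z ^ u) (D + 1) hz2 a m HD l h δ0 ε₁ ((X : ℝ) / l ^ (2 * k + 4)) (SS f a w) (SS f a z) ε lam T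
    g0 hε₁ hε hεl hh0 hδ0 hδh hlam hT1 g1 hHDl Al hVz0.le ?_ g2 g3 hk ?_ ?_ ?_ ?_ ?_ huHD hHDu ?_ hAlm ?_ H hTH ?_
  · have h4 : √l ≤ l := by rw [Real.sqrt_le_left hl0.le]; nlinarith
    linarith
  · intro j hj
    have h4 := q1 j hj
    rw [bad1] at h4
    push Not at h4
    rw [← he]
    exact h4
  · intro G hG n hn hκ
    rw [hAl] at hG
    have hv := hKv X m₀ M C m G n l a g5 hl1' hX1 ha hm hW hG hn
    have h4 := prod_close (univ : Finset (Fin k)) (fun i => wt ((f i).eval (n : ℤ) + a i).natAbs) (1 / l) ε₂ (by positivity)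
      he20.le (fun i _ => hwc _ (hκ i) (hv i))
    rw [card_univ, Fintype.card_fin, one_div, inv_pow, ← one_div] at h4
    refine h4.trans ?_
    exact mul_le_mul_of_nonneg_right he21 (by positivity)
  · exact hhw
  · intro G hG
    have hwG : w ^ u ≤ G := by
      have : ((w ^ u : ℕ) : ℝ) ≤ G := hwu.trans hG
      exact_mod_cast this
    have hG0 : (0 : ℝ) < G := by linarith
    exact fl_use _ _ _ _ G (by exact_mod_cast hG0) hb0 hb2 (hfl w hwy G hwG a m hadm)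
  · intro G hG1 hG
    exact fl_use _ _ _ _ G hG1 hb0 hb2 (hfl z hzy G hG a m hadm)
  · intro j hj hjD
    have h4 := q2 j hj hjD
    rw [bad2] at h4
    push Not at h4
    rw [← he]
    exact h4
  · intro hA
    have h4 := q3 hA
    rw [bad2] at h4
    push Not at h4
    rw [← he]
    exact h4
  · intro G hG
    rw [hAl]
    have h4 : (G : ℝ) ≤ H + H := by
      have : (G : ℝ) ≤ 2 * H := by exact_mod_cast hG
      linarith
    intro i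
    refine (pow_le_pow_left₀ (Nat.cast_nonneg _) h4 _).trans ?_
    exact dbl _ _ _ _ K l _ (Nat.cast_nonneg _) (Nat.cast_nonneg _) (hHA i) (hHA i) (by positivity) (hK2 i) g5 (by
      rw [pow_succ l C]
      exact le_of_eq (by ring))

end Run7.h285.G
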