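import Pool.Agent.Run7.h285.G.GEN
import Pool.Agent.Run7.h376.G.Main
import Pool.Agent.Run7.h212.G.CF
import Pool.Agent.Run7.h973.G.SM1
import Pool.Agent.Run7.h973.G.SM2
import Pool.Agent.Run7.h882.G.FL
import Pool.Agent.Run7.h109.G.HG
import Pool.Agent.Run7.h794.MK.All

/-!
# Project GEN: the theorem without hypotheses
-/

set_option autoImplicit false

namespace Run7.h285.G

open Polynomial

theorem gen_all {k : ℕ} (f : Fin k → ℤ[X]) (hk : 1 ≤ k) (hf : ∀ l, Gd (f l)) : S_GEN f :=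
  gen f hk hf (Run7.h973.G.gsm1 f hf fun l => Run7.h376.G.gcg Pool.Agent.Run7.h794.MK.law_all (hf l))
    (Run7.h973.G.gsm2 f hf fun l => Run7.h212.G.gcf (f l) (hf l)) (Run7.h882.G.gfl f) (Run7.h109.G.ghg f hf)

end Run7.h285.G
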