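import Pool.Agent.Run7.h285.G.Stm
import Pool.Agent.Run7.h285.S.SYSMb

/-!
# Project GEN, the assembly, first part
-/

set_option autoImplicit false

namespace Run7.h285.G

open Finset Filter Topology Polynomial
open Pool.Agent.H373R2.T7 (pz Vz lamz mem_pz Vz_ge Vz_inv_le Vz_le_one Vz_inv_small)
open Pool.Agent.TH892.SW (ff wt wt_nonneg wt_le)
open Pool.Agent.TH892.OW (evt_ll)
open Run7.h285.E3 (win_split near_a wt_le')
open Run7.h285.S (Bx uu vv ll gg MG MG_long MG_zero cheb markov card_or card_slice card_Bx prod_close pow_small wt_close combA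
  cut_z)
open Run7.h285.X (scal scal_ge scal_lt all_scales)
open Pool.Agent.H442R2.EHI (evt_log_pow evt_log_ge)

lemma MM_eq (k : ℕ) (G : (Fin k → ℤ) → ℕ → ℝ) (X m₀ M H : ℕ) : MM k (fun _ => 1) G X m₀ M H = MG (Bx k X) G m₀ M H := by
  unfold MM MG
  simp only [one_mul]

/-- the second moments of the primes minus the model, decreasing in `H` -/
theorem mom_1M {k : ℕ} (f : Fin k → ℤ[X]) (h1 : S_GSM1 f) : ∃ K₀ : ℝ, 1 ≤ K₀ ∧ ∀ C : ℕ, ∃ E1 : ℕ, ∀ E : ℕ, E1 ≤ E →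
    ∃ B X₀ : ℕ, ∀ X : ℕ, X₀ ≤ X → ∀ m₀ M H : ℕ,
      (∀ l, (X : ℝ) ^ (1 / 3 : ℝ) * Real.log X ^ B ≤ (M : ℝ) ^ ((f l).natDegree - 1)) →
      (∀ l, ((m₀ : ℝ) + H + M) ^ (f l).natDegree ≤ X * Real.log X ^ C) → Real.log X ^ k ≤ H →
      MM k (fun _ => 1) (fun a n => pr f (fun _ => uu) a n - pr f (fun _ => vv ⌊Real.log X ^ E⌋₊) a n) X m₀ M H ≤
        (X : ℝ) ^ k * M * (((H : ℝ) / Real.log X ^ k) ^ 2 * (K₀ * (Real.log X ^ k / H + 1 / Real.log X ^ 2))) := by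
  obtain ⟨K₀, hK, h1⟩ := h1
  refine ⟨12 * K₀, by linarith, fun C => ?_⟩
  obtain ⟨E1, h1⟩ := h1 (2 * k + 2) C (k + 2)
  refine ⟨E1, fun E hE => ?_⟩
  obtain ⟨B, X1, h1⟩ := h1 E hE
  obtain ⟨X2, hX2⟩ := eventually_atTop.1 (evt_log_ge 10000)
  refine ⟨B, max X1 X2, fun X hX m₀ M H hM hW hT => ?_⟩
  have hl := hX2 X (le_trans (le_max_right _ _) hX)
  have h2' := fun m₁ r hr hr3 hW1 => h1 X (le_trans (le_max_left _ _) hX) m₁ M r hr hr3 hM hW1 (fun _ => 1)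
    (fun _ => by norm_num)
  clear h1 hX2 hX
  have h2 : ∀ m₁ r : ℕ, 1 ≤ r → (r : ℝ) ≤ Real.log X ^ (k + 2) →
      (∀ l, ((m₁ : ℝ) + M) ^ (f l).natDegree ≤ X * Real.log X ^ C) →
      MG (Bx k X) (fun a n => pr f (fun _ => uu) a n - pr f (fun _ => vv ⌊Real.log X ^ E⌋₊) a n) m₁ M r ≤
        (X : ℝ) ^ k * M * (K₀ * r / Real.log X ^ k + (r : ℝ) ^ 2 / Real.log X ^ (2 * k + 2)) := by
    intro m₁ r hr hr3 hW1
    have h3 := h2' m₁ r hr hr3 hW1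
    rw [MM_eq] at h3
    refine h3.trans (le_of_eq ?_)
    have e : ∑ m ∈ Ioc m₁ (m₁ + M), ∑ n ∈ Ioc m (m + r), (1 : ℝ) ^ 2 = M * r := by
      simp [Nat.card_Ioc]
    rw [e]
    ring
  clear h2'
  rw [MM_eq]
  generalize Real.log X = l at *
  have hl0 : 0 < l := by linarith
  have hl1 : 1 ≤ l := by linarith
  have hlk : 0 < l ^ k := by positivity
  have hlk1 : 1 ≤ l ^ k := one_le_pow₀ hl1
  have hXM : 0 ≤ (X : ℝ) ^ k * M := by positivity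
  have hHr : (0 : ℝ) < H := by linarith
  have hH1 : 1 ≤ H := by exact_mod_cast hHr
  have e3 : l ^ (2 * k + 2) = (l ^ k) ^ 2 * l ^ 2 := by ring
  rw [e3] at h2
  have e4 : l ^ (k + 2) = l ^ k * l ^ 2 := by ring
  rw [e4] at h2
  obtain ⟨L, hL⟩ : ∃ L, L = l ^ k := ⟨_, rfl⟩
  rw [← hL] at h2 hT hlk hlk1 ⊢
  have hmono : ∀ m₁ : ℕ, (m₁ : ℝ) + M ≤ (m₀ : ℝ) + H + M → ∀ l', ((m₁ : ℝ) + M) ^ (f l').natDegree ≤ X * l ^ C := by
    intro m₁ h3 l'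
    refine le_trans ?_ (hW l')
    exact pow_le_pow_left₀ (by positivity) h3 _
  rcases le_or_gt (H : ℝ) (L * l ^ 2) with h3 | h3
  · refine (h2 m₀ H hH1 h3 (hmono m₀ (by linarith))).trans ?_
    apply mul_le_mul_of_nonneg_left _ hXM
    have e1 : ((H : ℝ) / L) ^ 2 * (12 * K₀ * (L / H + 1 / l ^ 2)) =
        12 * (K₀ * H / L) + 12 * K₀ * ((H : ℝ) ^ 2 / (L ^ 2 * l ^ 2)) := by
      field_simp
    rw [e1]
    have h4 : 0 ≤ K₀ * H / L := by positivity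
    have h5 : 0 ≤ (H : ℝ) ^ 2 / (L ^ 2 * l ^ 2) := by positivity
    nlinarith
  · obtain ⟨H₁, hH₁⟩ : ∃ H₁, H₁ = ⌊L * l ^ 2⌋₊ := ⟨_, rfl⟩
    have a1 : (H₁ : ℝ) ≤ L * l ^ 2 := by rw [hH₁]; exact Nat.floor_le (by positivity)
    have a2 : L * l ^ 2 / 2 ≤ (H₁ : ℝ) := by
      have h4 := Nat.lt_floor_add_one (L * l ^ 2)
      rw [← hH₁] at h4
      have h5 : (2 : ℝ) ≤ L * l ^ 2 := by nlinarith
      linarith
    have a3 : H₁ ≤ H := by
      have : (H₁ : ℝ) ≤ H := by linarith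
      exact_mod_cast this
    have hLl : 0 < L * l ^ 2 := by positivity
    have a4 : (0 : ℝ) < H₁ := by linarith
    have a5 : 1 ≤ H₁ := by exact_mod_cast a4
    have h4 := MG_long (Bx k X) (fun a n => pr f (fun _ => uu) a n - pr f (fun _ => vv ⌊l ^ E⌋₊) a n) M H₁
      ((X : ℝ) ^ k * M * (K₀ * H₁ / L + (H₁ : ℝ) ^ 2 / (L ^ 2 * l ^ 2))) ((m₀ : ℝ) + H + M) a5
      (by positivity) (by
        intro m₁ r hr hr1 hW1
        have hr' : (r : ℝ) ≤ H₁ := by exact_mod_cast hr1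
        refine (h2 m₁ r hr (by linarith) (hmono m₁ hW1)).trans ?_
        gcongr) m₀ H a3 le_rfl
    refine h4.trans ?_
    have e1 : 4 * ((H : ℝ) / H₁) ^ 2 * ((X : ℝ) ^ k * M * (K₀ * H₁ / L + (H₁ : ℝ) ^ 2 / (L ^ 2 * l ^ 2))) =
        (X : ℝ) ^ k * M * (((H : ℝ) / L) ^ 2 * (4 * K₀ * (L / H₁) + 4 / l ^ 2)) := by
      field_simp
    rw [e1]
    apply mul_le_mul_of_nonneg_left _ hXM
    apply mul_le_mul_of_nonneg_left _ (sq_nonneg _)
    have h5 : L / H₁ ≤ 2 / l ^ 2 := by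
      rw [div_le_div_iff₀ a4 (by positivity)]
      linarith
    have h6 : 4 * K₀ * (L / H₁) ≤ 4 * K₀ * (2 / l ^ 2) := mul_le_mul_of_nonneg_left h5 (by positivity)
    have h7 : 4 * K₀ * (2 / l ^ 2) = 8 * K₀ * (1 / l ^ 2) := by ring
    have h8 : 4 / l ^ 2 = 4 * (1 / l ^ 2) := by ring
    have h9 : 0 ≤ 1 / l ^ 2 := by positivity
    have h10 : 0 ≤ L / H := by positivity
    rw [h8]
    rw [h7] at h6
    nlinarith

/-- the second moments of the difference of two models -/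
theorem mom_2M {k : ℕ} (f : Fin k → ℤ[X]) (h1 : S_GSM2 f) (C D E u : ℕ) (hE : 1 ≤ E) (hu : 1 ≤ u) :
    ∃ X₀ : ℕ, ∀ X : ℕ, X₀ ≤ X → ∀ m₀ M H : ℕ, (∀ l, (X : ℝ) ^ (1 / 3 : ℝ) ≤ (M : ℝ) ^ ((f l).natDegree - 1)) →
      (∀ l, ((m₀ : ℝ) + M) ^ (f l).natDegree ≤ X * Real.log X ^ C) → Real.log X ≤ H → (H : ℝ) ≤ Real.log X ^ D →
      MM k (fun _ => 1) (fun a n => pr f (fun _ => ll ⌊Real.log X ^ E⌋₊) a n -
        pr f (fun _ => ll ⌊Real.log X ^ (1 / (u : ℝ))⌋₊) a n) X m₀ M H ≤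
        (X : ℝ) ^ k * M * ((H : ℝ) ^ 2 * (1 / √(Real.log X) + 1 / Real.log (Real.log X) ^ 2)) := by
  obtain ⟨X1, h1⟩ := h1 C D E u 2 hE hu
  obtain ⟨X2, hX2⟩ := eventually_atTop.1 (evt_log_ge 10000)
  refine ⟨max X1 X2, fun X hX m₀ M H hM hW hT hHD => ?_⟩
  have hl := hX2 X (le_trans (le_max_right _ _) hX)
  have hHr : (0 : ℝ) < H := by linarith
  have h2 := h1 X (le_trans (le_max_left _ _) hX) m₀ M H (by exact_mod_cast hHr) hHD hM hW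
  refine h2.trans ?_
  clear h1 hX2 hX h2
  generalize Real.log X = l at *
  have hl0 : 0 < l := by linarith
  have hs0 : 0 < √l := Real.sqrt_pos.2 hl0
  have hss : √l * √l = l := Real.mul_self_sqrt hl0.le
  have hXM : 0 ≤ (X : ℝ) ^ k * M := by positivity
  apply mul_le_mul_of_nonneg_left _ hXM
  have h4 : (H : ℝ) * √l ≤ (H : ℝ) ^ 2 * (1 / √l) := by
    rw [mul_one_div, le_div_iff₀ hs0]
    have : (H : ℝ) * √l * √l = H * l := by rw [mul_assoc, hss]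
    rw [this]
    nlinarith
  have h5 : (H : ℝ) ^ 2 / Real.log l ^ 2 = (H : ℝ) ^ 2 * (1 / Real.log l ^ 2) := by ring
  rw [h5]
  linarith

/-! ### small values -/

open Classical in
/-- the number of the `n` of the window with a small value -/
noncomputable def nn {k : ℕ} (f : Fin k → ℤ[X]) (a : Fin k → ℤ) (m H : ℕ) (κ : ℝ) : ℕ :=
  #((Ioc m (m + H)).filter (fun n : ℕ => ∃ l, (((f l).eval (n : ℤ) + a l).natAbs : ℝ) < κ))

open Classical in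
lemma near {k : ℕ} (f : Fin k → ℤ[X]) (X m₀ M H : ℕ) (κ lam : ℝ) (hκ : 0 ≤ κ) (hl : 0 < lam) :
    (#((Bx k X ×ˢ Ioc m₀ (m₀ + M)).filter (fun p => lam < (nn f p.1 p.2 H κ : ℝ))) : ℝ) ≤
      M * (H * (k * ((2 * κ + 1) * (2 * X + 1) ^ (k - 1)))) / lam := by
  apply markov (Bx k X) (Ioc m₀ (m₀ + M)) (fun a m => (nn f a m H κ : ℝ)) lam _ hl (fun _ _ => Nat.cast_nonneg _)
  rw [sum_comm]
  have h1 : ∀ m ∈ Ioc m₀ (m₀ + M), ∑ a ∈ Bx k X, (nn f a m H κ : ℝ) ≤ H * (k * ((2 * κ + 1) * (2 * X + 1) ^ (k - 1))) := by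
    intro m _
    have e1 : ∑ a ∈ Bx k X, (nn f a m H κ : ℝ) =
        ∑ n ∈ Ioc m (m + H), (#((Bx k X).filter (fun a => ∃ l, (((f l).eval (n : ℤ) + a l).natAbs : ℝ) < κ)) : ℝ) := by
      unfold nn
      simp_rw [card_filter]
      push_cast
      exact sum_comm
    rw [e1]
    have h2 : ∀ n ∈ Ioc m (m + H), (#((Bx k X).filter (fun a => ∃ l, (((f l).eval (n : ℤ) + a l).natAbs : ℝ) < κ)) : ℝ) ≤
        k * ((2 * κ + 1) * (2 * X + 1) ^ (k - 1)) := by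
      intro n _
      have h3 : (Bx k X).filter (fun a => ∃ l, (((f l).eval (n : ℤ) + a l).natAbs : ℝ) < κ) ⊆
          univ.biUnion fun l : Fin k => (Bx k X).filter (fun a => (((f l).eval (n : ℤ) + a l).natAbs : ℝ) < κ) := by
        intro a ha
        rw [mem_filter] at ha
        obtain ⟨l, hl⟩ := ha.2
        exact mem_biUnion.2 ⟨l, mem_univ _, mem_filter.2 ⟨ha.1, hl⟩⟩
      have h4 := (card_le_card h3).trans card_biUnion_le
      have h5 : (#((Bx k X).filter (fun a => ∃ l, (((f l).eval (n : ℤ) + a l).natAbs : ℝ) < κ)) : ℝ) ≤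
          ∑ l : Fin k, (#((Bx k X).filter (fun a => (((f l).eval (n : ℤ) + a l).natAbs : ℝ) < κ)) : ℝ) := by exact_mod_cast h4
      refine h5.trans ?_
      refine (sum_le_sum fun l _ => card_slice k X l (fun c => (((f l).eval (n : ℤ) + c).natAbs : ℝ) < κ) (2 * κ + 1)
        (near_a _ _ κ hκ)).trans (le_of_eq ?_)
      rw [sum_const, card_univ, Fintype.card_fin, nsmul_eq_mul]
    refine (sum_le_sum h2).trans (le_of_eq ?_)
    rw [sum_const, Nat.card_Ioc, nsmul_eq_mul, Nat.add_sub_cancel_left]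
  refine (sum_le_sum h1).trans (le_of_eq ?_)
  rw [sum_const, Nat.card_Ioc, nsmul_eq_mul, Nat.add_sub_cancel_left]

open Classical in
/-- the weights in a window -/
lemma sum_near {k : ℕ} (f : Fin k → ℤ[X]) (a : Fin k → ℤ) (m H : ℕ) (κ c ε c0 : ℝ) (x : ℕ → ℝ) (hx : ∀ n, 0 ≤ x n)
    (hx0 : ∀ n, x n ≤ c0) (hc : 0 < c) (hc1 : c ≤ 1) (hε : 0 ≤ ε)
    (hwt : ∀ n ∈ Ioc m (m + H), (∀ l, κ ≤ (((f l).eval (n : ℤ) + a l).natAbs : ℝ)) →
      |∏ l, wt ((f l).eval (n : ℤ) + a l).natAbs - c| ≤ ε * c) :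
    |∑ n ∈ Ioc m (m + H), x n * ∏ l, wt ((f l).eval (n : ℤ) + a l).natAbs - c * ∑ n ∈ Ioc m (m + H), x n| ≤
      ε * c * ∑ n ∈ Ioc m (m + H), x n + 2 ^ (k + 1) * (nn f a m H κ : ℝ) * c0 := by
  have e1 : ε * c * ∑ n ∈ Ioc m (m + H), x n + 2 ^ (k + 1) * (nn f a m H κ : ℝ) * c0 =
      ∑ n ∈ Ioc m (m + H), (ε * c * x n + 2 ^ (k + 1) * c0 * (if ∃ l, (((f l).eval (n : ℤ) + a l).natAbs : ℝ) < κ then 1 else 0)) := by
    rw [sum_add_distrib, ← mul_sum, ← mul_sum, sum_boole]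
    unfold nn
    ring
  rw [e1, mul_sum, ← sum_sub_distrib]
  refine (abs_sum_le_sum_abs _ _).trans (sum_le_sum fun n hn => ?_)
  have e2 : x n * ∏ l, wt ((f l).eval (n : ℤ) + a l).natAbs - c * x n =
      x n * (∏ l, wt ((f l).eval (n : ℤ) + a l).natAbs - c) := by ring
  rw [e2, abs_mul, abs_of_nonneg (hx n)]
  have hc00 : 0 ≤ c0 := (hx n).trans (hx0 n)
  split_ifs with h
  · have h1 : |∏ l, wt ((f l).eval (n : ℤ) + a l).natAbs - c| ≤ 2 ^ (k + 1) := by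
      have h2 : 0 ≤ ∏ l, wt ((f l).eval (n : ℤ) + a l).natAbs := prod_nonneg fun l _ => wt_nonneg _
      have h3 : ∏ l, wt ((f l).eval (n : ℤ) + a l).natAbs ≤ 2 ^ k := by
        calc ∏ l, wt ((f l).eval (n : ℤ) + a l).natAbs ≤ ∏ _l : Fin k, (2 : ℝ) :=
              prod_le_prod (fun l _ => wt_nonneg _) fun l _ => (wt_le' _).trans (by norm_num)
          _ = 2 ^ k := by rw [prod_const, card_univ, Fintype.card_fin]
      have h4 : (1 : ℝ) ≤ 2 ^ k := one_le_pow₀ (by norm_num)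
      rw [abs_le, pow_succ]; constructor <;> linarith
    have h2 : x n * |∏ l, wt ((f l).eval (n : ℤ) + a l).natAbs - c| ≤ c0 * 2 ^ (k + 1) :=
      mul_le_mul (hx0 n) h1 (abs_nonneg _) hc00
    have h3 : 0 ≤ ε * c * x n := by have := hx n; positivity
    linarith
  · push Not at h
    have h1 := mul_le_mul_of_nonneg_left (hwt n hn h) (hx n)
    linarith

/-! ### one tuple -/

lemma P_eq {k : ℕ} (f : Fin k → ℤ[X]) (a : Fin k → ℤ) (m H : ℕ) :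
    (P f a m H : ℝ) = ∑ n ∈ Ioc m (m + H), pr f (fun _ => uu) a n := by
  unfold P pr uu
  rw [← sum_boole]
  refine sum_congr rfl fun n _ => ?_
  rw [prod_ite_zero]
  simp

lemma pr_vv {k : ℕ} (f : Fin k → ℤ[X]) (z : ℕ) (a : Fin k → ℤ) (n : ℕ) :
    pr f (fun _ => vv z) a n = pr f (fun _ => ll z) a n * ∏ l, wt ((f l).eval (n : ℤ) + a l).natAbs := by
  unfold pr vv ll
  rw [prod_mul_distrib]

lemma pr_ll_nonneg {k : ℕ} (f : Fin k → ℤ[X]) (z : ℕ) (hz : 1 ≤ z) (a : Fin k → ℤ) (n : ℕ) :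
    0 ≤ pr f (fun _ => ll z) a n := by
  unfold pr ll
  exact prod_nonneg fun l _ => Pool.Agent.TH892.SW.lamz_nonneg z _ hz

lemma pr_ll_le {k : ℕ} (f : Fin k → ℤ[X]) (z : ℕ) (hz : 1 ≤ z) (a : Fin k → ℤ) (n : ℕ) :
    pr f (fun _ => ll z) a n ≤ ((Vz z)⁻¹) ^ k := by
  unfold pr ll
  calc ∏ l : Fin k, lamz z ((f l).eval (n : ℤ) + a l).natAbs ≤ ∏ _l : Fin k, (Vz z)⁻¹ :=
        prod_le_prod (fun l _ => Pool.Agent.TH892.SW.lamz_nonneg z _ hz)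
          fun l _ => Pool.Agent.TH892.SW.lamz_le z _ hz
    _ = _ := by rw [prod_const, card_univ, Fintype.card_fin]

/-- one tuple at one scale -/
lemma single {k : ℕ} (f : Fin k → ℤ[X]) (z : ℕ) (hz : 2 ≤ z) (a : Fin k → ℤ) (m H : ℕ) (L h δ0 ε κ N V Qw : ℝ)
    (hL : 1 ≤ L) (hε : 0 < ε) (hε1 : ε ≤ 1 / 100) (hh : 0 < h) (hδh : δ0 ≤ h)
    (hG : |∑ n ∈ Ioc m (m + H), (pr f (fun _ => uu) a n - pr f (fun _ => vv z) a n)| ≤ ε * δ0 * (H / L))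
    (hF : |∑ n ∈ Ioc m (m + H), pr f (fun _ => ll z) a n - Qw| ≤ ε * δ0 * H)
    (hN : (nn f a m H κ : ℝ) ≤ N) (hN1 : 2 ^ (k + 1) * N * ((Vz z)⁻¹) ^ k ≤ ε * δ0 * (H / L))
    (hN2 : 2 ^ (k + 1) * N ≤ ε * (H / L))
    (hwt : ∀ n ∈ Ioc m (m + H), (∀ i, κ ≤ (((f i).eval (n : ℤ) + a i).natAbs : ℝ)) →
      |∏ i, wt ((f i).eval (n : ℤ) + a i).natAbs - 1 / L| ≤ ε * (1 / L))
    (hV : |V - h| ≤ ε * h) (hQ : |Qw - H * V| ≤ ε * V * H) :
    |(P f a m H : ℝ) - h * W f a m H| ≤ 12 * ε * (h * W f a m H) ∧ |W f a m H - H / L| ≤ 2 * ε * (H / L) := by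
  have hL0 : 0 < L := by linarith
  have hH0 : (0 : ℝ) ≤ H := Nat.cast_nonneg _
  have hc1 : 1 / L ≤ 1 := by rw [div_le_one hL0]; exact hL
  have e3 := sum_near f a m H κ (1 / L) ε (((Vz z)⁻¹) ^ k) (fun n => pr f (fun _ => ll z) a n)
    (fun n => pr_ll_nonneg f z (by omega) a n) (fun n => pr_ll_le f z (by omega) a n) (by positivity) hc1 hε.le hwt
  have e4 := sum_near f a m H κ (1 / L) ε 1 (fun _ => 1)
    (fun _ => zero_le_one) (fun _ => le_rfl) (by positivity) hc1 hε.le hwt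
  have e5 : ∑ n ∈ Ioc m (m + H), (1 : ℝ) = H := by
    rw [sum_const, Nat.card_Ioc, nsmul_eq_mul, mul_one, Nat.add_sub_cancel_left]
  have e6 : ∑ n ∈ Ioc m (m + H), 1 * ∏ i, wt ((f i).eval (n : ℤ) + a i).natAbs = W f a m H := by
    unfold W
    exact sum_congr rfl fun n _ => one_mul _
  rw [e5, e6] at e4
  have hVk : 0 ≤ ((Vz z)⁻¹) ^ k := pow_nonneg (inv_nonneg.2 (Pool.Agent.TH892.OW.Vz_pos z).le) k
  have hδq : ε * δ0 * ((H : ℝ) / L) ≤ ε * (h * (H / L)) := by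
    have : ε * δ0 * ((H : ℝ) / L) ≤ ε * h * (H / L) := by gcongr
    linarith
  have n1 : 2 ^ (k + 1) * (nn f a m H κ : ℝ) * ((Vz z)⁻¹) ^ k ≤ ε * (h * ((H : ℝ) / L)) := by
    calc 2 ^ (k + 1) * (nn f a m H κ : ℝ) * ((Vz z)⁻¹) ^ k ≤ 2 ^ (k + 1) * N * ((Vz z)⁻¹) ^ k := by gcongr
      _ ≤ _ := hN1.trans hδq
  have n2 : 2 ^ (k + 1) * (nn f a m H κ : ℝ) * 1 ≤ ε * ((H : ℝ) / L) := by
    rw [mul_one]
    refine le_trans ?_ hN2
    gcongr
  have hPe : (P f a m H : ℝ) = ∑ n ∈ Ioc m (m + H), (pr f (fun _ => uu) a n - pr f (fun _ => vv z) a n) +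
      ∑ n ∈ Ioc m (m + H), pr f (fun _ => ll z) a n * ∏ i, wt ((f i).eval (n : ℤ) + a i).natAbs := by
    rw [P_eq, sum_sub_distrib]
    have : ∑ n ∈ Ioc m (m + H), pr f (fun _ => vv z) a n =
        ∑ n ∈ Ioc m (m + H), pr f (fun _ => ll z) a n * ∏ i, wt ((f i).eval (n : ℤ) + a i).natAbs :=
      sum_congr rfl fun n _ => pr_vv f z a n
    rw [this]; ring
  have e8 : (1 : ℝ) / L * H = H / L := by ring
  have e9 : ε * (1 / L) * (H : ℝ) = ε * (H / L) := by ring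
  rw [e8, e9] at e4
  have e4' : |W f a m H - H / L| ≤ 2 * ε * (H / L) := by linarith
  refine ⟨?_, e4'⟩
  rw [hPe]
  exact combA L H h ε V (∑ n ∈ Ioc m (m + H), pr f (fun _ => ll z) a n) Qw
    (∑ n ∈ Ioc m (m + H), pr f (fun _ => ll z) a n * ∏ i, wt ((f i).eval (n : ℤ) + a i).natAbs) (W f a m H)
    (∑ n ∈ Ioc m (m + H), (pr f (fun _ => uu) a n - pr f (fun _ => vv z) a n)) hL0 hH0 hε hε1 hh
    (hG.trans hδq)
    (by
      refine hF.trans ?_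
      have e7 : ε * (h * ((H : ℝ) / L)) * L = ε * h * H := by field_simp
      rw [e7]
      gcongr)
    hV hQ (by linarith) e4'

/-- one tuple at one scale, small (cut at `w`) or large (cut at `z`) -/
theorem good_scale {k : ℕ} (f : Fin k → ℤ[X]) (w z u D : ℕ) (hz : 2 ≤ z) (a : Fin k → ℤ) (m G HD : ℕ)
    (l L h δ0 e κ V V' : ℝ)
    (hL : 1 ≤ L) (he : 0 < e) (he2 : 5 * e ≤ 1 / 100) (hh : 0 < h) (hδ : 0 < δ0) (hδh : δ0 ≤ h) (hLG : L ≤ G)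
    (hLHD : L ≤ HD)
    (k1 : |∑ n ∈ Ioc m (m + G), (pr f (fun _ => uu) a n - pr f (fun _ => vv z) a n)| ≤ e * δ0 * (G / L))
    (N : ℝ) (k3 : (nn f a m G κ : ℝ) ≤ N) (hN1 : 2 ^ (k + 1) * N * ((Vz z)⁻¹) ^ k ≤ e * δ0 * (G / L))
    (hN2 : 2 ^ (k + 1) * N ≤ e * (G / L))
    (hwt : ∀ n ∈ Ioc m (m + G), (∀ i, κ ≤ (((f i).eval (n : ℤ) + a i).natAbs : ℝ)) →
      |∏ i, wt ((f i).eval (n : ℤ) + a i).natAbs - 1 / L| ≤ e * (1 / L))
    (hV : |V - h| ≤ e * h)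
    (hQ : ∀ G' : ℕ, L ≤ G' → |∑ n ∈ Ioc m (m + G'), pr f (fun _ => ll w) a n - G' * V| ≤ e * V * G')
    (hQz : ∀ G' : ℕ, 1 ≤ G' → u ≤ G' → |∑ n ∈ Ioc m (m + G'), pr f (fun _ => ll z) a n - G' * V'| ≤ e * V' * G')
    (huHD : u ≤ HD)
    (hsm : (G : ℝ) ≤ l ^ D → |∑ n ∈ Ioc m (m + G), (pr f (fun _ => ll z) a n - pr f (fun _ => ll w) a n)| ≤ e * δ0 * G)
    (hlg : l ^ D < (G : ℝ) → HD ≤ G ∧
      |∑ n ∈ Ioc m (m + HD), (pr f (fun _ => ll z) a n - pr f (fun _ => ll w) a n)| ≤ e * δ0 * HD) :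
    |(P f a m G : ℝ) - h * W f a m G| ≤ 60 * e * (h * W f a m G) ∧ |W f a m G - G / L| ≤ 10 * e * (G / L) := by
  have hL0 : 0 < L := by linarith
  have hG0 : (0 : ℝ) < G := by linarith
  have hG1 : 1 ≤ G := by exact_mod_cast hG0
  have hW0 : 0 ≤ W f a m G := by
    unfold W
    exact sum_nonneg fun _ _ => prod_nonneg fun _ _ => wt_nonneg _
  have hhW : 0 ≤ h * W f a m G := mul_nonneg hh.le hW0
  have hGl : 0 ≤ (G : ℝ) / L := by positivity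
  rcases le_or_gt (G : ℝ) (l ^ D) with hGD | hGD
  · have k4 := hsm hGD
    rw [sum_sub_distrib] at k4
    have h4 := single f z hz a m G L h δ0 e κ N V _ hL he (by linarith) hh hδh k1 k4 k3 hN1 hN2 hwt hV (hQ G hLG)
    refine ⟨h4.1.trans ?_, h4.2.trans ?_⟩
    · exact mul_le_mul_of_nonneg_right (by linarith) hhW
    · exact mul_le_mul_of_nonneg_right (by linarith) hGl
  · obtain ⟨hHDG, k4⟩ := hlg hGD
    rw [sum_sub_distrib] at k4
    clear hsm hlg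
    have hHD0 : (0 : ℝ) < HD := by linarith
    have hHD1 : 1 ≤ HD := by exact_mod_cast hHD0
    have hVZ := cut_z HD h δ0 e V V' _ _ hHD0 he (by linarith) hh hδh k4 hV (hQ HD hLHD) (hQz HD hHD1 huHD)
    have hFz' := hQz G hG1 (huHD.trans hHDG)
    have hCz0 : 0 ≤ V' := by
      have h6 := (abs_le.1 hVZ).1
      have h7 : 5 * e * h ≤ 1 / 100 * h := mul_le_mul_of_nonneg_right he2 hh.le
      linarith
    have hm5 : ∀ x : ℝ, 0 ≤ x → e * x ≤ 5 * e * x := fun x hx => mul_le_mul_of_nonneg_right (by linarith) hx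
    have g2 : 0 ≤ δ0 * ((G : ℝ) / L) := by positivity
    have g3 : 0 ≤ V' * (G : ℝ) := by positivity
    have k1' := k1.trans (show e * δ0 * ((G : ℝ) / L) ≤ 5 * e * δ0 * (G / L) by
      have := hm5 _ g2
      rw [mul_assoc e, mul_assoc (5 * e)]; exact this)
    have hN1' := hN1.trans (show e * δ0 * ((G : ℝ) / L) ≤ 5 * e * δ0 * (G / L) by
      have := hm5 _ g2
      rw [mul_assoc e, mul_assoc (5 * e)]; exact this)
    have hFz'' := hFz'.trans (show e * V' * (G : ℝ) ≤ 5 * e * V' * G by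
      have := hm5 _ g3
      rw [mul_assoc e, mul_assoc (5 * e)]; exact this)
    have h4 := single f z hz a m G L h δ0 (5 * e) κ N V' (∑ n ∈ Ioc m (m + G), pr f (fun _ => ll z) a n) hL
      (by linarith) he2 hh hδh k1' (by rw [sub_self, abs_zero]; positivity) k3 hN1' (hN2.trans (hm5 _ hGl))
      (fun n hn hκ => (hwt n hn hκ).trans (hm5 _ (by positivity))) hVZ hFz''
    refine ⟨h4.1.trans ?_, h4.2.trans ?_⟩
    · exact mul_le_mul_of_nonneg_right (by linarith) hhW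
    · exact mul_le_mul_of_nonneg_right (by linarith) hGl

end Run7.h285.G
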