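import Pool.Agent.Run7.h285.G.GENa

/-!
# Project GEN, the assembly, second part
-/

set_option autoImplicit false

namespace Run7.h285.G

open Finset Filter Topology Polynomial
open Pool.Agent.H373R2.T7 (pz Vz lamz mem_pz Vz_ge Vz_inv_le Vz_le_one Vz_inv_small)
open Pool.Agent.TH892.SW (ff wt wt_nonneg wt_le)
open Run7.h285.S (Bx uu vv ll gg MG cheb hN1_ar hN2_ar)
open Run7.h285.X (scal scal_ge scal_lt all_scales card_or)

/-- the bad pairs at one scale, first kind -/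
def bad1 {k : ℕ} (f : Fin k → ℤ[X]) (z : ℕ) (L N e κ : ℝ) (H : ℕ) (p : (Fin k → ℤ) × ℕ) : Prop :=
  e * ((H : ℝ) / L) < |∑ n ∈ Ioc p.2 (p.2 + H), (pr f (fun _ => uu) p.1 n - pr f (fun _ => vv z) p.1 n)| ∨
  (H : ℝ) / N < (nn f p.1 p.2 H κ : ℝ)

/-- the bad pairs at one scale, second kind -/
def bad2 {k : ℕ} (f : Fin k → ℤ[X]) (w z : ℕ) (e : ℝ) (H : ℕ) (p : (Fin k → ℤ) × ℕ) : Prop :=
  e * (H : ℝ) < |∑ n ∈ Ioc p.2 (p.2 + H), (pr f (fun _ => ll z) p.1 n - pr f (fun _ => ll w) p.1 n)|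

open Classical in
lemma count1 {k : ℕ} (f : Fin k → ℤ[X]) (hk : 1 ≤ k) (X m₀ M z H : ℕ) (l e F : ℝ) (hl : 1 ≤ l) (hH : (0 : ℝ) < H)
    (he : 0 < e) (hX : l ^ (2 * k + 4) ≤ X) (hX1 : 1 ≤ X)
    (hm : MM k (fun _ => 1) (fun a n => pr f (fun _ => uu) a n - pr f (fun _ => vv z) a n) X m₀ M H ≤
      (X : ℝ) ^ k * M * (((H : ℝ) / l ^ k) ^ 2 * F)) :
    (#((Bx k X ×ˢ Ioc m₀ (m₀ + M)).filter (bad1 f z (l ^ k) (l ^ (2 * k + 2)) e ((X : ℝ) / l ^ (2 * k + 4)) H)) : ℝ) ≤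
      (X : ℝ) ^ k * M * (1 / e ^ 2 * F + 3 * (k * 3 ^ k) / l ^ 2) := by
  rw [MM_eq] at hm
  have hl0 : 0 < l := by linarith
  have hX1r : (1 : ℝ) ≤ X := by exact_mod_cast hX1
  have hX0 : (0 : ℝ) < X := by linarith
  have hlam1p : 0 < e * ((H : ℝ) / l ^ k) := by positivity
  have cff : (#((Bx k X ×ˢ Ioc m₀ (m₀ + M)).filter (fun p => e * ((H : ℝ) / l ^ k) < |∑ n ∈ Ioc p.2 (p.2 + H),
      (pr f (fun _ => uu) p.1 n - pr f (fun _ => vv z) p.1 n)|)) : ℝ) ≤ (X : ℝ) ^ k * M * (1 / e ^ 2 * F) := by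
    refine (cheb (Bx k X) (Ioc m₀ (m₀ + M)) (fun a m => ∑ n ∈ Ioc m (m + H), (pr f (fun _ => uu) a n - pr f (fun _ => vv z) a n))
      _ _ hlam1p hm).trans (le_of_eq ?_)
    field_simp
  have cnn : (#((Bx k X ×ˢ Ioc m₀ (m₀ + M)).filter (fun p => (H : ℝ) / l ^ (2 * k + 2) <
      (nn f p.1 p.2 H ((X : ℝ) / l ^ (2 * k + 4)) : ℝ))) : ℝ) ≤ (X : ℝ) ^ k * M * (3 * (k * 3 ^ k) / l ^ 2) := by
    refine (near f X m₀ M H ((X : ℝ) / l ^ (2 * k + 4)) ((H : ℝ) / l ^ (2 * k + 2)) (by positivity) (by positivity)).trans ?_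
    have e' : (M : ℝ) * (H * (k * ((2 * ((X : ℝ) / l ^ (2 * k + 4)) + 1) * (2 * X + 1) ^ (k - 1)))) / ((H : ℝ) / l ^ (2 * k + 2)) =
        M * (k * ((2 * X / l ^ 2 + l ^ (2 * k + 2)) * (2 * X + 1) ^ (k - 1))) := by
      have e2 : l ^ (2 * k + 4) = l ^ (2 * k + 2) * l ^ 2 := by ring
      rw [e2]
      field_simp
    rw [e']
    have h7 : (2 * (X : ℝ) + 1) ^ (k - 1) ≤ 3 ^ k * X ^ (k - 1) := by
      calc (2 * (X : ℝ) + 1) ^ (k - 1) ≤ (3 * X) ^ (k - 1) := pow_le_pow_left₀ (by positivity) (by linarith) _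
        _ = 3 ^ (k - 1) * X ^ (k - 1) := by rw [mul_pow]
        _ ≤ 3 ^ k * X ^ (k - 1) := by
            gcongr
            · norm_num
            · omega
    have h8 : 2 * X / l ^ 2 + l ^ (2 * k + 2) ≤ 3 * X / l ^ 2 := by
      have h9 : l ^ (2 * k + 2) ≤ X / l ^ 2 := by
        rw [le_div_iff₀ (by positivity), ← pow_add]
        exact hX
      have h10 : 2 * (X : ℝ) / l ^ 2 + X / l ^ 2 = 3 * X / l ^ 2 := by ring
      linarith
    have h13 : (X : ℝ) ^ k = X * X ^ (k - 1) := by rw [← pow_succ', Nat.sub_add_cancel hk]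
    calc (M : ℝ) * (k * ((2 * X / l ^ 2 + l ^ (2 * k + 2)) * (2 * X + 1) ^ (k - 1)))
        ≤ M * (k * ((3 * X / l ^ 2) * (3 ^ k * X ^ (k - 1)))) := by gcongr
      _ = _ := by rw [h13]; ring
  have h4 := card_or _ _ _ _ _ cff cnn
  refine le_trans (le_of_eq ?_) (h4.trans (le_of_eq ?_))
  · congr 2
    ext p
    simp only [mem_filter, bad1]
  · ring

open Classical in
lemma count2 {k : ℕ} (f : Fin k → ℤ[X]) (X m₀ M w z H : ℕ) (e F : ℝ) (hH : (0 : ℝ) < H) (he : 0 < e)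
    (hm : MM k (fun _ => 1) (fun a n => pr f (fun _ => ll z) a n - pr f (fun _ => ll w) a n) X m₀ M H ≤
      (X : ℝ) ^ k * M * ((H : ℝ) ^ 2 * F)) :
    (#((Bx k X ×ˢ Ioc m₀ (m₀ + M)).filter (bad2 f w z e H)) : ℝ) ≤ (X : ℝ) ^ k * M * (1 / e ^ 2 * F) := by
  rw [MM_eq] at hm
  have hlam1p : 0 < e * (H : ℝ) := by positivity
  have cff : (#((Bx k X ×ˢ Ioc m₀ (m₀ + M)).filter (fun p => e * (H : ℝ) < |∑ n ∈ Ioc p.2 (p.2 + H),
      (pr f (fun _ => ll z) p.1 n - pr f (fun _ => ll w) p.1 n)|)) : ℝ) ≤ (X : ℝ) ^ k * M * (1 / e ^ 2 * F) := by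
    refine (cheb (Bx k X) (Ioc m₀ (m₀ + M)) (fun a m => ∑ n ∈ Ioc m (m + H), (pr f (fun _ => ll z) a n - pr f (fun _ => ll w) a n))
      _ _ hlam1p hm).trans (le_of_eq ?_)
    field_simp
  refine le_trans (le_of_eq ?_) cff
  congr 2

/-- one tuple, all scales -/
theorem pair_all {k : ℕ} (f : Fin k → ℤ[X]) (w z u D : ℕ) (hz : 2 ≤ z) (a : Fin k → ℤ) (m HD : ℕ)
    (l h δ0 e κ V V' ε lam T : ℝ)
    (hl : 10000 ≤ l) (he : e = ε / 2400) (hε : 0 < ε) (hε1 : ε ≤ 1) (hh : 0 < h) (hδ : 0 < δ0) (hδh : δ0 ≤ h)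
    (hlam : lam = 1 + ε / 10) (hT : 1 ≤ T) (hlT : 10 / ε ≤ l)
    (hlHD : l ^ k ≤ HD) (Al : ℕ → Prop) (hVz0 : 0 ≤ (Vz z)⁻¹) (hVz : (Vz z)⁻¹ ≤ l) (hl1 : 2 ^ (k + 1) / (e * δ0) ≤ l)
    (hl2 : 2 ^ (k + 1) / e ≤ l) (hk : 1 ≤ k)
    (k12 : ∀ j, Al (scal (T * l ^ k) lam j) → |∑ n ∈ Ioc m (m + scal (T * l ^ k) lam j), (pr f (fun _ => uu) a n - pr f (fun _ => vv z) a n)| ≤
        e * δ0 * (scal (T * l ^ k) lam j / l ^ k) ∧
      (nn f a m (scal (T * l ^ k) lam j) κ : ℝ) ≤ scal (T * l ^ k) lam j / l ^ (2 * k + 2))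
    (hwt : ∀ G : ℕ, Al G → ∀ n ∈ Ioc m (m + G), (∀ i, κ ≤ (((f i).eval (n : ℤ) + a i).natAbs : ℝ)) →
      |∏ i, wt ((f i).eval (n : ℤ) + a i).natAbs - 1 / l ^ k| ≤ e * (1 / l ^ k))
    (hV : |V - h| ≤ e * h)
    (hQ : ∀ G' : ℕ, l ^ k ≤ G' → |∑ n ∈ Ioc m (m + G'), pr f (fun _ => ll w) a n - G' * V| ≤ e * V * G')
    (hQz : ∀ G' : ℕ, 1 ≤ G' → u ≤ G' → |∑ n ∈ Ioc m (m + G'), pr f (fun _ => ll z) a n - G' * V'| ≤ e * V' * G')
    (huHD : u ≤ HD) (hHDu : (HD : ℝ) ≤ l ^ D)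
    (hsm : ∀ j, Al (scal (T * l ^ k) lam j) → (scal (T * l ^ k) lam j : ℝ) ≤ l ^ D →
      |∑ n ∈ Ioc m (m + scal (T * l ^ k) lam j), (pr f (fun _ => ll z) a n - pr f (fun _ => ll w) a n)| ≤
        e * δ0 * scal (T * l ^ k) lam j)
    (hAlm : ∀ G G' : ℕ, G ≤ G' → Al G' → Al G)
    (hlg : Al HD → |∑ n ∈ Ioc m (m + HD), (pr f (fun _ => ll z) a n - pr f (fun _ => ll w) a n)| ≤ e * δ0 * HD)
    (H : ℕ) (hTH : 2 * T * l ^ k ≤ H) (hAH : ∀ G : ℕ, G ≤ 2 * H → Al G) :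
    |(P f a m H : ℝ) - h * W f a m H| ≤ ε * (h * W f a m H) := by
  have hl0 : 0 < l := by linarith
  have hl1' : 1 ≤ l := by linarith
  have hL1 : 1 ≤ l ^ k := one_le_pow₀ hl1'
  have hlL : l ≤ l ^ k := le_self_pow₀ hl1' (by omega)
  have hL0 : 0 < l ^ k := by positivity
  have he0 : 0 < e := by rw [he]; positivity
  have heδ : 0 < e * δ0 := by positivity
  have he2 : 5 * e ≤ 1 / 100 := by rw [he]; linarith
  have hlam1 : 1 < lam := by rw [hlam]; have : 0 < ε / 10 := by positivity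
                             linarith
  have ht0 : 0 < T * l ^ k := by positivity
  have hlt : l ^ k ≤ T * l ^ k := by nlinarith
  have hscl : ∀ j, l ^ k ≤ (scal (T * l ^ k) lam j : ℝ) := by
    intro j
    refine le_trans ?_ (scal_ge (T * l ^ k) lam j)
    have : 1 ≤ lam ^ j := one_le_pow₀ hlam1.le
    nlinarith
  have hgood : ∀ j, scal (T * l ^ k) lam j ≤ 2 * H →
      |(P f a m (scal (T * l ^ k) lam j) : ℝ) - h * W f a m (scal (T * l ^ k) lam j)| ≤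
        ε / 40 * (h * W f a m (scal (T * l ^ k) lam j)) ∧
      |W f a m (scal (T * l ^ k) lam j) - scal (T * l ^ k) lam j / l ^ k| ≤ ε / 40 * (scal (T * l ^ k) lam j / l ^ k) := by
    intro j hj
    have hA := hAH _ hj
    obtain ⟨k1, k3⟩ := k12 j hA
    have hs := hscl j
    have hsm' := hsm j hA
    generalize scal (T * l ^ k) lam j = G at *
    have h4 := good_scale f w z u D hz a m G HD l (l ^ k) h δ0 e κ V V' hL1 he0 he2 hh hδ hδh hs hlHD k1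
      ((G : ℝ) / l ^ (2 * k + 2)) k3 (hN1_ar k l (e * δ0) _ G hl1' heδ hVz0 hVz hl1) (hN2_ar k l e G hl1' he0 hl2)
      (hwt G hA) hV hQ hQz huHD hsm' (by
        intro hG
        have hHDG : HD ≤ G := by
          have : (HD : ℝ) ≤ G := hHDu.trans hG.le
          exact_mod_cast this
        exact ⟨hHDG, hlg (hAlm _ _ hHDG hA)⟩)
    have h60 : 60 * e = ε / 40 := by rw [he]; ring
    have hG0 : 0 ≤ (G : ℝ) / l ^ k := by positivity
    rw [h60] at h4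
    refine ⟨h4.1, h4.2.trans (mul_le_mul_of_nonneg_right ?_ hG0)⟩
    rw [he]; linarith
  have hPm : Monotone (fun G : ℕ => (P f a m G : ℝ)) := by
    intro G G' hGG
    have : P f a m G ≤ P f a m G' := by
      unfold P
      apply card_le_card
      apply filter_subset_filter
      exact Ioc_subset_Ioc le_rfl (by omega)
    show (P f a m G : ℝ) ≤ P f a m G'
    exact_mod_cast this
  have hWm : Monotone (fun G : ℕ => W f a m G) := by
    intro G G' hGG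
    show W f a m G ≤ W f a m G'
    unfold W
    apply sum_le_sum_of_subset_of_nonneg
    · exact Ioc_subset_Ioc le_rfl (by omega)
    · intro n _ _; exact prod_nonneg fun _ _ => wt_nonneg _
  exact all_scales (fun G : ℕ => (P f a m G : ℝ)) (fun G : ℕ => W f a m G) hPm hWm h (l ^ k) ε (ε / 40) lam (T * l ^ k)
    hh hL0 hε hε1 (by positivity) le_rfl hlam (by linarith) (fun j => scal (T * l ^ k) lam j ≤ 2 * H) hgood H (by
      have h5 := scal_lt (T * l ^ k) lam ht0.le (by linarith) 0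
      rw [pow_zero, mul_one] at h5
      have h6 : (scal (T * l ^ k) lam 0 : ℝ) < H + 1 := by
        have : T * l ^ k + 1 ≤ 2 * T * l ^ k := by nlinarith
        linarith
      have h7 : scal (T * l ^ k) lam 0 < H + 1 := by exact_mod_cast h6
      omega) (fun j hj => hj)

/-! ### sizes -/

/-- the size of the values of a polynomial -/
lemma eval_bd (g : ℤ[X]) : ∃ K : ℕ, 1 ≤ K ∧ ∀ n : ℕ, (((g.eval (n : ℤ)).natAbs : ℕ) : ℝ) ≤ K * ((n : ℝ) ^ g.natDegree + 1) := by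
  refine ⟨∑ i ∈ range (g.natDegree + 1), (g.coeff i).natAbs + 1, by omega, fun n => ?_⟩
  have h1 : g.eval (n : ℤ) = ∑ i ∈ range (g.natDegree + 1), g.coeff i * (n : ℤ) ^ i := eval_eq_sum_range _
  have h2 : (g.eval (n : ℤ)).natAbs ≤ ∑ i ∈ range (g.natDegree + 1), (g.coeff i).natAbs * n ^ i := by
    rw [h1]
    refine (Int.natAbs_sum_le _ _).trans (sum_le_sum fun i _ => ?_)
    rw [Int.natAbs_mul, Int.natAbs_pow, Int.natAbs_natCast]
  have h3 : ∀ i ∈ range (g.natDegree + 1), (n : ℝ) ^ i ≤ (n : ℝ) ^ g.natDegree + 1 := by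
    intro i hi
    rw [mem_range] at hi
    rcases Nat.eq_zero_or_pos n with h0 | h0
    · subst h0
      have a1 : ((0 : ℕ) : ℝ) ^ i ≤ 1 := by
        rw [Nat.cast_zero]
        exact pow_le_one₀ le_rfl zero_le_one
      have a2 : 0 ≤ ((0 : ℕ) : ℝ) ^ g.natDegree := by positivity
      linarith
    · have a1 : (1 : ℝ) ≤ n := by exact_mod_cast h0
      have := pow_le_pow_right₀ a1 (show i ≤ g.natDegree by omega)
      linarith
  have h4 : (((g.eval (n : ℤ)).natAbs : ℕ) : ℝ) ≤ ∑ i ∈ range (g.natDegree + 1), ((g.coeff i).natAbs : ℝ) * (n : ℝ) ^ i := by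
    exact_mod_cast h2
  refine h4.trans ?_
  calc ∑ i ∈ range (g.natDegree + 1), ((g.coeff i).natAbs : ℝ) * (n : ℝ) ^ i
      ≤ ∑ i ∈ range (g.natDegree + 1), ((g.coeff i).natAbs : ℝ) * ((n : ℝ) ^ g.natDegree + 1) :=
        sum_le_sum fun i hi => mul_le_mul_of_nonneg_left (h3 i hi) (Nat.cast_nonneg _)
    _ = (∑ i ∈ range (g.natDegree + 1), ((g.coeff i).natAbs : ℝ)) * ((n : ℝ) ^ g.natDegree + 1) := by rw [sum_mul]
    _ ≤ _ := by
        apply mul_le_mul_of_nonneg_right _ (by positivity)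
        push_cast
        linarith

/-- the size of the values in the windows -/
lemma val_le (g : ℤ[X]) : ∃ K : ℝ, 0 < K ∧ ∀ (X m₀ M C m G n : ℕ) (l : ℝ) (c : ℤ), K ≤ l → 1 ≤ l → (1 : ℝ) ≤ X →
    c ∈ Icc (-(X : ℤ)) X → m ∈ Ioc m₀ (m₀ + M) → ((m₀ : ℝ) + M) ^ g.natDegree ≤ X * l ^ C →
    (G : ℝ) ^ g.natDegree ≤ X * l ^ (C + 1) → n ∈ Ioc m (m + G) →
    ((g.eval (n : ℤ) + c).natAbs : ℝ) ≤ X * l ^ (C + 2) := by
  obtain ⟨K, hK1, hK⟩ := eval_bd g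
  refine ⟨K * (2 ^ g.natDegree + 1) + 1, by positivity, fun X m₀ M C m G n l c hKl hl hX hc hm hW hG hn => ?_⟩
  rw [mem_Ioc] at hn hm
  rw [mem_Icc] at hc
  have hl0 : 0 < l := by linarith
  have hX0 : (0 : ℝ) < X := by linarith
  have hlC : 1 ≤ l ^ (C + 1) := one_le_pow₀ hl
  have hXl : (1 : ℝ) ≤ X * l ^ (C + 1) := by nlinarith
  have hXX : (X : ℝ) ≤ X * l ^ (C + 1) := le_mul_of_one_le_right hX0.le hlC
  have h1 : ((m₀ : ℝ) + M) ^ g.natDegree ≤ X * l ^ (C + 1) := by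
    refine hW.trans ?_
    gcongr
    omega
  have h2 : (n : ℝ) ≤ 2 * max ((m₀ : ℝ) + M) G := by
    have a1 : (n : ℝ) ≤ m + G := by exact_mod_cast hn.2
    have a2 : (m : ℝ) ≤ m₀ + M := by exact_mod_cast hm.2
    have a3 := le_max_left ((m₀ : ℝ) + M) G
    have a4 := le_max_right ((m₀ : ℝ) + M) G
    linarith
  have h3 : (n : ℝ) ^ g.natDegree ≤ 2 ^ g.natDegree * (X * l ^ (C + 1)) := by
    refine (pow_le_pow_left₀ (Nat.cast_nonneg _) h2 _).trans ?_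
    rw [mul_pow]
    apply mul_le_mul_of_nonneg_left _ (by positivity)
    rcases max_choice ((m₀ : ℝ) + M) G with h | h
    · rw [h]; exact h1
    · rw [h]; exact hG
  have h4 : ((g.eval (n : ℤ) + c).natAbs : ℝ) ≤ (g.eval (n : ℤ)).natAbs + X := by
    have a1 := Int.natAbs_add_le (g.eval (n : ℤ)) c
    have a2 : c.natAbs ≤ X := by omega
    exact_mod_cast a1.trans (by omega)
  have h5 := hK n
  have hKr : (1 : ℝ) ≤ K := by exact_mod_cast hK1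
  calc ((g.eval (n : ℤ) + c).natAbs : ℝ) ≤ K * ((n : ℝ) ^ g.natDegree + 1) + X := by linarith
    _ ≤ K * (2 ^ g.natDegree * (X * l ^ (C + 1)) + X * l ^ (C + 1)) + X * l ^ (C + 1) := by gcongr
    _ = (K * (2 ^ g.natDegree + 1) + 1) * (X * l ^ (C + 1)) := by ring
    _ ≤ l * (X * l ^ (C + 1)) := mul_le_mul_of_nonneg_right hKl (by positivity)
    _ = _ := by ring

end Run7.h285.G
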